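import Pool.Agent.J4H46.EL.Sch
import Pool.Agent.Helper226.Loci

/-! Project EL: the assembly -/

set_option autoImplicit false

open scoped TensorProduct
open CategoryTheory AlgebraicGeometry IsLocalRing

universe u

namespace Pool.Agent.J4H46.EL

open Pool.Agent.Helper226

/-- A component `C` of the Hilbert scheme is elementary: the subschemes of `𝔸ⁿ_Ω` which correspond to the points of `C`
with values in algebraically closed fields `Ω` are supported at one point (their coordinate rings are local rings). -/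
def IsElementary {K : Type u} [Field K] {n r : ℕ} (𝓗 : HilbertScheme K (MvPolynomial (Fin n) K) r)
    (C : Set 𝓗.H) : Prop :=
  ∀ (Ω : Type u) [Field Ω] [Algebra K Ω] [IsAlgClosed Ω] (f : PointsOver K 𝓗.H 𝓗.s Ω),
    Set.range f.1 ⊆ C → IsLocalRing ((Ω ⊗[K] MvPolynomial (Fin n) K) ⧸ (𝓗.Φ Ω f).1)

section
variable {K : Type u} [Field K] {B : Type u} [CommRing B] [Algebra K B] {r : ℕ}

/-- composition of a point with a homomorphism -/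
noncomputable def push (𝓗 : HilbertScheme K B r) {R R' : Type u} [CommRing R] [Algebra K R]
    [CommRing R'] [Algebra K R'] (g : R →ₐ[K] R') (f : PointsOver K 𝓗.H 𝓗.s R) :
    PointsOver K 𝓗.H 𝓗.s R' :=
  ⟨Spec.map (CommRingCat.ofHom g.toRingHom) ≫ f.1, by
    rw [Category.assoc, f.2, ← Spec.map_comp, ← CommRingCat.ofHom_comp]
    congr 2
    exact g.comp_algebraMap⟩

lemma Φ_push (𝓗 : HilbertScheme K B r) {R R' : Type u} [CommRing R] [Algebra K R]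
    [CommRing R'] [Algebra K R'] (g : R →ₐ[K] R') (f : PointsOver K 𝓗.H 𝓗.s R) :
    (𝓗.Φ R' (push 𝓗 g f)).1 = bcI B g (𝓗.Φ R f).1 :=
  𝓗.natural R R' g f _ rfl

lemma Φ_of (𝓗 : HilbertScheme K B r) {R R' : Type u} [CommRing R] [Algebra K R]
    [CommRing R'] [Algebra K R'] (g : R →ₐ[K] R') (f : PointsOver K 𝓗.H 𝓗.s R)
    (f' : PointsOver K 𝓗.H 𝓗.s R') (h : f'.1 = Spec.map (CommRingCat.ofHom g.toRingHom) ≫ f.1) :
    (𝓗.Φ R' f').1 = bcI B g (𝓗.Φ R f).1 :=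
  𝓗.natural R R' g f f' h

/-- the field of definition -/
lemma trdeg_le (hD : S_DESC.{u}) (hT : S_TRD.{u}) (𝓗 : HilbertScheme K B r) (x : 𝓗.H)
    {κ : Type u} [Field κ] [Algebra K κ] (f : PointsOver K 𝓗.H 𝓗.s κ)
    (hf : ∀ (L : Type u) [Field L] [Algebra K L] (h : PointsOver K 𝓗.H 𝓗.s L), x ∈ Set.range h.1 →
        ∃ ψ : κ →ₐ[K] L, h.1 = Spec.map (CommRingCat.ofHom ψ.toRingHom) ≫ f.1)
    {Ω : Type u} [Field Ω] [Algebra K Ω] (h : PointsOver K 𝓗.H 𝓗.s Ω) (hx : x ∈ Set.range h.1)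
    (L : IntermediateField K Ω) (hL : SpanBy (𝓗.Φ Ω h).1 L r) :
    Algebra.trdeg K κ ≤ Algebra.trdeg K L := by
  obtain ⟨J', hJ', e⟩ := hD K Ω B L r (𝓗.Φ Ω h).1 (𝓗.Φ Ω h).2 hL
  let h' : PointsOver K 𝓗.H 𝓗.s L := (𝓗.Φ L).symm ⟨J', hJ'⟩
  have e1 : push 𝓗 L.val h' = h := by
    apply (𝓗.Φ Ω).injective
    apply Subtype.ext
    rw [Φ_push, Equiv.apply_symm_apply]
    exact e
  have hx' : x ∈ Set.range h'.1 := by
    rw [← e1] at hx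
    obtain ⟨y, rfl⟩ := hx
    exact ⟨Spec.map (CommRingCat.ofHom L.val.toRingHom) y, by simp [push]⟩
  obtain ⟨ψ, -⟩ := hf L h' hx'
  exact hT K κ κ L (AlgHom.id K κ) ψ Function.surjective_id

end

/-- bound for the transcendence degrees of the residue fields -/
def BD {K : Type u} [Field K] {B : Type u} [CommRing B] [Algebra K B] {r : ℕ}
    (𝓗 : HilbertScheme K B r) (N : ℕ) : Prop :=
  ∀ x : 𝓗.H, ∃ (κ : Type u) (_ : Field κ) (_ : Algebra K κ) (f : PointsOver K 𝓗.H 𝓗.s κ),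
    Algebra.trdeg K κ ≤ (N : Cardinal.{u}) ∧
    ∀ (L : Type u) [Field L] [Algebra K L] (h : PointsOver K 𝓗.H 𝓗.s L), x ∈ Set.range h.1 →
        ∃ ψ : κ →ₐ[K] L, h.1 = Spec.map (CommRingCat.ofHom ψ.toRingHom) ≫ f.1

theorem bd_of_finite (hD : S_DESC.{u}) (hT : S_TRD.{u}) (hF : S_FIN.{u}) (K : Type u) [Field K]
    (n r : ℕ) (𝓗 : HilbertScheme K (MvPolynomial (Fin n) K) r) : BD 𝓗 (n * r ^ 2 + r) := by
  intro x
  obtain ⟨A, κ, _, _, _, _, _, π, g, f, hπ, hf, hx, h1, h2⟩ := t_SCH.{u} K 𝓗.H 𝓗.s x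
  refine ⟨κ, _, _, f, ?_, h2⟩
  obtain ⟨L, hL, hs⟩ := hF K κ n r (𝓗.Φ κ f).1 (𝓗.Φ κ f).2
  exact (trdeg_le hD hT 𝓗 x f h2 f hx L hs).trans hL

theorem bd_of_split (hD : S_DESC.{u}) (hT : S_TRD.{u}) (hFo : S_FOD.{u}) (hCu : S_CUT.{u})
    (hNL : S_NL.{u}) (hCl : S_CLO.{u}) (hCm : S_CMP.{u}) (K : Type u) [Field K]
    (n r C : ℕ) (hr : 0 < r) (𝓗 : HilbertScheme K (MvPolynomial (Fin n) K) r)
    (hn : ∀ Z ∈ irreducibleComponents 𝓗.H, ¬ IsElementary 𝓗 Z)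
    (ih : ∀ a < r, ∃ 𝓗' : HilbertScheme K (MvPolynomial (Fin n) K) a, BD 𝓗' (C * a)) :
    BD 𝓗 (C * r) := by
  intro x
  -- the generic point of a component through `x`
  let Z : Set 𝓗.H := irreducibleComponent x
  have hZ : Z ∈ irreducibleComponents 𝓗.H := irreducibleComponent_mem_irreducibleComponents x
  have hZi : IsIrreducible Z := isIrreducible_irreducibleComponent
  have hZc : IsClosed Z := isClosed_irreducibleComponent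
  let ξ : 𝓗.H := hZi.genericPoint
  have hξ : closure ({ξ} : Set 𝓗.H) = Z := by
    rw [← hZc.closure_eq]
    exact hZi.isGenericPoint_genericPoint_closure
  have hspec : ∀ z ∈ Z, ξ ⤳ z := by
    intro z hz
    rw [specializes_iff_mem_closure, hξ]
    exact hz
  -- a point of the component whose subscheme is not local
  have h1 := hn Z hZ
  unfold IsElementary at h1
  push Not at h1
  obtain ⟨Ω', i1, i2, i3, f', hf', hnl⟩ := h1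
  let z : 𝓗.H := f'.1 (closedPoint Ω')
  have hzr : z ∈ Set.range f'.1 := ⟨_, rfl⟩
  have hz : z ∈ Z := hf' hzr
  obtain ⟨A, κz, _, _, _, _, _, πz, g, fz, hπz, hfz, hxz, hz1, hz2⟩ := t_SCH.{u} K 𝓗.H 𝓗.s z
  obtain ⟨Aξ, κ, _, _, _, _, _, π, gξ, f, hπ, hf, hxf, hξ1, hξ2⟩ := t_SCH.{u} K 𝓗.H 𝓗.s ξ
  let Ω : Type u := AlgebraicClosure κ
  let h : PointsOver K 𝓗.H 𝓗.s Ω := push 𝓗 (IsScalarTower.toAlgHom K κ Ω) f
  have hxh : ξ ∈ Set.range h.1 := by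
    have hne : Set.range f.1 = {ξ} := by
      have hs : Subsingleton (Spec (CommRingCat.of κ)) := inferInstance
      obtain ⟨y, hy⟩ := hxf
      ext w
      constructor
      · rintro ⟨y', rfl⟩
        rw [← hy, Subsingleton.elim y' y]
        rfl
      · rintro rfl
        exact ⟨y, hy⟩
    have h3 : h.1 (closedPoint Ω) ∈ Set.range f.1 :=
      ⟨Spec.map (CommRingCat.ofHom (IsScalarTower.toAlgHom K κ Ω).toRingHom) (closedPoint Ω), by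
        simp [h, push]⟩
    rw [hne] at h3
    exact ⟨_, h3⟩
  obtain ⟨φ, hφ⟩ := hz1 Ω h ξ hxh (hspec z hz)
  obtain ⟨ψ, hψ⟩ := hz2 Ω' f' hzr
  have hφ' : f'.1 = Spec.map (CommRingCat.ofHom (ψ.comp πz).toRingHom) ≫ g.1 := by
    rw [hψ, hfz, ← Category.assoc, ← Spec.map_comp]
    rfl
  have hker : RingHom.ker φ ≤ RingHom.ker (ψ.comp πz) := by
    have hm : RingHom.ker (ψ.comp πz) = IsLocalRing.maximalIdeal A := by
      have h4 : RingHom.ker (ψ.comp πz) = RingHom.ker πz := by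
        ext a
        simp [RingHom.mem_ker]
      rw [h4]
      exact IsLocalRing.eq_maximalIdeal (RingHom.ker_isMaximal_of_surjective πz hπz)
    rw [hm]
    have : (RingHom.ker φ).IsPrime := RingHom.ker_isPrime _
    exact IsLocalRing.le_maximalIdeal this.ne_top
  have hnlΩ : ¬ IsLocalRing ((Ω ⊗[K] MvPolynomial (Fin n) K) ⧸ (𝓗.Φ Ω h).1) := by
    intro hl
    apply hnl
    rw [Φ_of 𝓗 (ψ.comp πz) g f' hφ']
    rw [Φ_of 𝓗 φ g h hφ] at hl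
    exact hCl K A Ω Ω' _ r _ φ (ψ.comp πz) (𝓗.Φ A g).2 hr hker hl
  obtain ⟨a, b, J₁, J₂, ha, hb, hab, hJ₁, hJ₂, hJ⟩ := hNL K Ω _ r _ (𝓗.Φ Ω h).2 hr hnlΩ
  obtain ⟨𝓗₁, hB₁⟩ := ih a (by omega)
  obtain ⟨𝓗₂, hB₂⟩ := ih b (by omega)
  let p₁ : PointsOver K 𝓗₁.H 𝓗₁.s Ω := (𝓗₁.Φ Ω).symm ⟨J₁, hJ₁⟩
  let p₂ : PointsOver K 𝓗₂.H 𝓗₂.s Ω := (𝓗₂.Φ Ω).symm ⟨J₂, hJ₂⟩
  obtain ⟨κ₁, _, _, f₁, hd₁, hu₁⟩ := hB₁ (p₁.1 (closedPoint Ω))
  obtain ⟨κ₂, _, _, f₂, hd₂, hu₂⟩ := hB₂ (p₂.1 (closedPoint Ω))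
  obtain ⟨ψ₁, hψ₁⟩ := hu₁ Ω p₁ ⟨_, rfl⟩
  obtain ⟨ψ₂, hψ₂⟩ := hu₂ Ω p₂ ⟨_, rfl⟩
  have e₁ : J₁ = bcI _ ψ₁ (𝓗₁.Φ κ₁ f₁).1 := by
    rw [← Φ_of 𝓗₁ ψ₁ f₁ p₁ hψ₁, Equiv.apply_symm_apply]
  have e₂ : J₂ = bcI _ ψ₂ (𝓗₂.Φ κ₂ f₂).1 := by
    rw [← Φ_of 𝓗₂ ψ₂ f₂ p₂ hψ₂, Equiv.apply_symm_apply]
  let L : IntermediateField K Ω := ψ₁.fieldRange ⊔ ψ₂.fieldRange
  have hs₁ : SpanBy J₁ L a := by
    rw [e₁]
    exact hFo K κ₁ Ω _ ψ₁ L a _ (𝓗₁.Φ κ₁ f₁).2 le_sup_left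
  have hs₂ : SpanBy J₂ L b := by
    rw [e₂]
    exact hFo K κ₂ Ω _ ψ₂ L b _ (𝓗₂.Φ κ₂ f₂).2 le_sup_right
  have hs : SpanBy (𝓗.Φ Ω h).1 L r := by
    rw [hJ, ← hab]
    exact hCu K Ω _ L a b J₁ J₂ hs₁ hs₂
  have hr1 : ∀ {κ' : Type u} [Field κ'] [Algebra K κ'] (ψ : κ' →ₐ[K] Ω),
      Algebra.trdeg K ψ.fieldRange ≤ Algebra.trdeg K κ' := by
    intro κ' _ _ ψ
    let e : κ' ≃ₐ[K] ψ.fieldRange := AlgEquiv.ofInjectiveField ψ
    exact hT K ψ.fieldRange ψ.fieldRange κ' (AlgHom.id K _) e.symm.toAlgHom Function.surjective_id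
  have hκ : Algebra.trdeg K κ ≤ ((C * r : ℕ) : Cardinal.{u}) := by
    calc Algebra.trdeg K κ ≤ Algebra.trdeg K L := trdeg_le hD hT 𝓗 ξ f hξ2 h hxh L hs
      _ ≤ Algebra.trdeg K ψ₁.fieldRange + Algebra.trdeg K ψ₂.fieldRange := hCm K Ω _ _
      _ ≤ ((C * a : ℕ) : Cardinal.{u}) + ((C * b : ℕ) : Cardinal.{u}) :=
          add_le_add ((hr1 ψ₁).trans hd₁) ((hr1 ψ₂).trans hd₂)
      _ = ((C * r : ℕ) : Cardinal.{u}) := by
          rw [← Nat.cast_add, ← mul_add, hab]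
  obtain ⟨Ax, κx, _, _, _, _, _, πx, gx, fx, hπx, hfx, hxx, hx1, hx2⟩ := t_SCH.{u} K 𝓗.H 𝓗.s x
  obtain ⟨φx, -⟩ := hx1 κ f ξ hxf (hspec x mem_irreducibleComponent)
  exact ⟨κx, _, _, fx, (hT K Ax κx κ πx φx hπx).trans hκ, hx2⟩

theorem main (hD : S_DESC.{u}) (hT : S_TRD.{u}) (hFo : S_FOD.{u}) (hCu : S_CUT.{u})
    (hNL : S_NL.{u}) (hCl : S_CLO.{u}) (hCm : S_CMP.{u}) (hG : S_GRA.{u}) (hF : S_FIN.{u})
    (hN : S_NUM) (K : Type u) [Field K] (R : ℕ) :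
    ∃ r : ℕ, R < r ∧ ∀ 𝓗 : HilbertScheme K (MvPolynomial (Fin 3) K) r,
      ∃ C ∈ irreducibleComponents 𝓗.H, IsElementary 𝓗 C := by
  by_contra hcon
  push Not at hcon
  have key : ∀ r : ℕ, ∃ 𝓗 : HilbertScheme K (MvPolynomial (Fin 3) K) r, BD 𝓗 ((3 * R + 1) * r) := by
    intro r
    induction r using Nat.strong_induction_on with
    | _ r ih =>
      by_cases hr : R < r
      · obtain ⟨𝓗, h𝓗⟩ := hcon r hr
        exact ⟨𝓗, bd_of_split hD hT hFo hCu hNL hCl hCm K 3 r (3 * R + 1) (by omega) 𝓗 h𝓗 ih⟩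
      · let 𝓗 := hilb K (MvPolynomial (Fin 3) K) r
        refine ⟨𝓗, fun x => ?_⟩
        obtain ⟨κ, i1, i2, f, h1, h2⟩ := bd_of_finite hD hT hF K 3 r 𝓗 x
        refine ⟨κ, i1, i2, f, h1.trans ?_, h2⟩
        have : 3 * r ^ 2 + r ≤ (3 * R + 1) * r := by nlinarith
        exact_mod_cast this
  obtain ⟨s, e, he, -, hlt⟩ := hN (3 * R + 1) R
  obtain ⟨F, _, _, J, hJ, hJ'⟩ := hG K s e he
  obtain ⟨𝓗, hB⟩ := key ((s + 2).choose 3 + e)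
  let p : PointsOver K 𝓗.H 𝓗.s F := (𝓗.Φ F).symm ⟨J, hJ⟩
  obtain ⟨κ, _, _, f, hd, hu⟩ := hB (p.1 (closedPoint F))
  obtain ⟨ψ, hψ⟩ := hu F p ⟨_, rfl⟩
  have e₁ : bcI _ ψ (𝓗.Φ κ f).1 = J := by
    rw [← Φ_of 𝓗 ψ f p hψ, Equiv.apply_symm_apply]
  have h3 := (hJ' κ ψ _ (𝓗.Φ κ f).2 e₁).trans hd
  have h4 : e * ((s + 2).choose 2 - e) ≤ (3 * R + 1) * ((s + 2).choose 3 + e) := by
    exact_mod_cast h3
  omega

end Pool.Agent.J4H46.EL
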