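import Mathlib
import Pool.Agent.J4H46.EL.Main
import Pool.Agent.J4H42.EL.Desc
import Pool.Agent.J4H42.EL.Nl
import Pool.Agent.J4H79.EL.Clo
import Pool.Agent.J4H57.EL.Fin
import Pool.Agent.J4H57.EL.Gra
import Pool.Agent.J4H79.EL.Cut
import Pool.Agent.J4H79.EL.Trd

/-!
# Project EL: the assembly
-/

set_option autoImplicit false

universe u

namespace Pool.Agent.J4H46.EL

open Pool.Agent.Helper226

theorem final (K : Type u) [Field K] :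
    (∀ r : ℕ, Nonempty (HilbertScheme K (MvPolynomial (Fin 3) K) r)) ∧
    ∀ R : ℕ, ∃ r : ℕ, R < r ∧ ∀ 𝓗 : HilbertScheme K (MvPolynomial (Fin 3) K) r,
      ∃ C ∈ irreducibleComponents 𝓗.H, IsElementary 𝓗 C :=
  ⟨fun r => ⟨hilb K _ r⟩, fun R => main J4H42.EL.t_DESC J4H79.EL.t_TRD J4H79.EL.t_FOD J4H79.EL.t_CUT
    J4H42.EL.t_NL J4H79.EL.t_CLO J4H79.EL.t_CMP J4H57.EL.t_GRA J4H57.EL.t_FIN J4H79.EL.t_NUM K R⟩

end Pool.Agent.J4H46.EL
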