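import Pool.Agent.J4H46.EL.Stm

/-! (SCH) stalks and residue fields of `K`-schemes -/

set_option autoImplicit false

open CategoryTheory AlgebraicGeometry IsLocalRing

universe u

namespace Pool.Agent.J4H46.EL

open Pool.Agent.Helper226

variable {K : Type u} [Field K] {H : Scheme.{u}} (s : H ⟶ Spec (CommRingCat.of K))

/-- a morphism of spectra over `K` comes from a homomorphism of algebras -/
lemma comm_of {A L : Type u} [CommRing A] [Algebra K A] [CommRing L] [Algebra K L]
    (g : PointsOver K H s A) (h : PointsOver K H s L) (φ : CommRingCat.of A ⟶ CommRingCat.of L)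
    (e : h.1 = Spec.map φ ≫ g.1) (r : K) : φ.hom (algebraMap K A r) = algebraMap K L r := by
  have h1 : Spec.map (CommRingCat.ofHom (algebraMap K L)) =
      Spec.map (CommRingCat.ofHom (algebraMap K A) ≫ φ) := by
    rw [← h.2, e, Category.assoc, g.2, ← Spec.map_comp]
  have h2 := Spec.map_injective h1
  have h3 := congr($(h2).hom r)
  exact h3.symm

theorem t_SCH : S_SCH.{u} := by
  intro K _ H s x
  let φA : CommRingCat.of K ⟶ H.presheaf.stalk x := Spec.preimage (H.fromSpecStalk x ≫ s)
  have hφA : Spec.map φA = H.fromSpecStalk x ≫ s := Spec.map_preimage _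
  let aA : Algebra K (H.presheaf.stalk x) := φA.hom.toAlgebra
  let aκ : Algebra K (H.residueField x) := ((H.residue x).hom.comp φA.hom).toAlgebra
  let π : (H.presheaf.stalk x) →ₐ[K] (H.residueField x) :=
    { toRingHom := (H.residue x).hom, commutes' := fun _ => rfl }
  let g : PointsOver K H s (H.presheaf.stalk x) := ⟨H.fromSpecStalk x, hφA.symm⟩
  let f : PointsOver K H s (H.residueField x) := ⟨H.fromSpecResidueField x, by
    change (Spec.map (H.residue x) ≫ H.fromSpecStalk x) ≫ s = Spec.map (φA ≫ H.residue x)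
    rw [Category.assoc, ← hφA, ← Spec.map_comp]⟩
  refine ⟨H.presheaf.stalk x, H.residueField x, inferInstance, inferInstance, aA,
    inferInstance, aκ, π, g, f, H.residue_surjective x, rfl, ?_, ?_, ?_⟩
  · change x ∈ Set.range (H.fromSpecResidueField x)
    rw [Scheme.range_fromSpecResidueField]
    rfl
  · intro L _ _ h ξ hξ hx
    obtain ⟨y, rfl⟩ := hξ
    have hy : y = closedPoint L := Subsingleton.elim _ _
    subst hy
    have e1 := Scheme.Spec_stalkClosedPointTo_fromSpecStalk h.1
    let φ : H.presheaf.stalk x ⟶ CommRingCat.of L :=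
      H.presheaf.stalkSpecializes hx ≫ Scheme.stalkClosedPointTo h.1
    have e2 : h.1 = Spec.map φ ≫ g.1 := by
      change h.1 = Spec.map (H.presheaf.stalkSpecializes hx ≫ Scheme.stalkClosedPointTo h.1) ≫
        H.fromSpecStalk x
      rw [Spec.map_comp, Category.assoc, Scheme.SpecMap_stalkSpecializes_fromSpecStalk, e1]
    exact ⟨{ toRingHom := φ.hom, commutes' := comm_of s g h φ e2 }, e2⟩
  · intro L _ _ h hx
    obtain ⟨y, rfl⟩ := hx
    have hy : y = closedPoint L := Subsingleton.elim _ _
    subst hy
    let ψ : H.residueField (h.1 (closedPoint L)) ⟶ CommRingCat.of L :=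
      H.descResidueField (Scheme.stalkClosedPointTo h.1)
    have e2 : h.1 = Spec.map ψ ≫ f.1 :=
      (Scheme.descResidueField_stalkClosedPointTo_fromSpecResidueField L H h.1).symm
    exact ⟨{ toRingHom := ψ.hom, commutes' := comm_of s f h ψ e2 }, e2⟩

end Pool.Agent.J4H46.EL
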