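import Mathlib
import Pool.Agent.Helper226.LociDefs

/-!
# Project EL: infinitely many elementary components of the Hilbert schemes of points of affine 3-space

Definitions and exact statements of the jobs. Notation of the starting files: `HilbFamily K B r R` is the set of the
ideals `J` of `R ⊗[K] B` whose quotient is finite projective of rank `r` over `R`; `PointsOver K H s R` are the
`R`-valued points of the `K`-scheme `s : H ⟶ Spec K`.
-/

set_option autoImplicit false

open scoped TensorProduct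
open CategoryTheory AlgebraicGeometry

universe u

namespace Pool.Agent.J4H46.EL

open Pool.Agent.Helper226

/-- extension of an ideal of `R ⊗ B` along `g : R → R'` -/
noncomputable abbrev bcI {K : Type u} [Field K] (B : Type u) [CommRing B] [Algebra K B] {R R' : Type u}
    [CommRing R] [Algebra K R] [CommRing R'] [Algebra K R'] (g : R →ₐ[K] R') (J : Ideal (R ⊗[K] B)) :
    Ideal (R' ⊗[K] B) :=
  J.map (Algebra.TensorProduct.map g (AlgHom.id K B))

/-- The image of `B` in the quotient `(Ω ⊗ B) / J` is contained in the `L`-span of `a` vectors. -/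
def SpanBy {K Ω B : Type u} [Field K] [Field Ω] [Algebra K Ω] [CommRing B] [Algebra K B]
    (J : Ideal (Ω ⊗[K] B)) (L : IntermediateField K Ω) (a : ℕ) : Prop :=
  ∃ v : Fin a → (Ω ⊗[K] B) ⧸ J, ∀ b : B,
    Ideal.Quotient.mk J ((1 : Ω) ⊗ₜ[K] b) ∈ Submodule.span L (Set.range v)

/-- (SCH) The stalk and the residue field at a point of a `K`-scheme. -/
def S_SCH : Prop :=
  ∀ (K : Type u) [Field K] (H : Scheme.{u}) (s : H ⟶ Spec (CommRingCat.of K)) (x : H),
    ∃ (A κ : Type u) (_ : CommRing A) (_ : IsLocalRing A) (_ : Algebra K A) (_ : Field κ)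
      (_ : Algebra K κ) (π : A →ₐ[K] κ) (g : PointsOver K H s A) (f : PointsOver K H s κ),
      Function.Surjective π ∧
      f.1 = Spec.map (CommRingCat.ofHom π.toRingHom) ≫ g.1 ∧ x ∈ Set.range f.1 ∧
      (∀ (L : Type u) [Field L] [Algebra K L] (h : PointsOver K H s L) (ξ : H),
        ξ ∈ Set.range h.1 → ξ ⤳ x →
        ∃ φ : A →ₐ[K] L, h.1 = Spec.map (CommRingCat.ofHom φ.toRingHom) ≫ g.1) ∧
      (∀ (L : Type u) [Field L] [Algebra K L] (h : PointsOver K H s L), x ∈ Set.range h.1 →
        ∃ ψ : κ →ₐ[K] L, h.1 = Spec.map (CommRingCat.ofHom ψ.toRingHom) ≫ f.1)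

/-- (DESC) Descent of a family over a field to a subfield. The image `M` of `L ⊗ B` in `Q = (Ω ⊗ B) / J` is an
`L`-subspace of dimension at most `r` (it is in the span of `v`) which generates `Q` over `Ω`, so its dimension is `r`;
`J'` is the kernel of `L ⊗ B → Q`, i.e. `comap`; `J'.map ≤ J` and both quotients have dimension `r` over `Ω`. -/
def S_DESC : Prop :=
  ∀ (K Ω B : Type u) [Field K] [Field Ω] [Algebra K Ω] [CommRing B] [Algebra K B]
    (L : IntermediateField K Ω) (r : ℕ) (J : Ideal (Ω ⊗[K] B)), J ∈ HilbFamily K B r Ω →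
    SpanBy J L r → ∃ J' : Ideal (L ⊗[K] B), J' ∈ HilbFamily K B r L ∧ bcI B L.val J' = J

/-- (FOD) A family which comes from a subfield. -/
def S_FOD : Prop :=
  ∀ (K κ Ω B : Type u) [Field K] [Field κ] [Algebra K κ] [Field Ω] [Algebra K Ω] [CommRing B]
    [Algebra K B] (ψ : κ →ₐ[K] Ω) (L : IntermediateField K Ω) (a : ℕ) (J' : Ideal (κ ⊗[K] B)),
    J' ∈ HilbFamily K B a κ → ψ.fieldRange ≤ L → SpanBy (bcI B ψ J') L a

/-- (CUT) Intersections: `(Ω ⊗ B) / (J₁ ⊓ J₂)` embeds into the product of the quotients. -/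
def S_CUT : Prop :=
  ∀ (K Ω B : Type u) [Field K] [Field Ω] [Algebra K Ω] [CommRing B] [Algebra K B]
    (L : IntermediateField K Ω) (a b : ℕ) (J₁ J₂ : Ideal (Ω ⊗[K] B)), SpanBy J₁ L a →
    SpanBy J₂ L b → SpanBy (J₁ ⊓ J₂) L (a + b)

/-- (NL) A finite-dimensional algebra `Q` of dimension `r ≥ 1` which is not local: there is `a` with `a`, `1 - a` not
units; for large `n` the range `I₁` and the kernel `I₂` of the multiplication by `a ^ n` are complementary
(`LinearMap.eventually_isCompl_ker_pow_range_pow`), and both are proper ideals; rank-nullity. Pull back to `Ω ⊗ B`. -/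
def S_NL : Prop :=
  ∀ (K Ω B : Type u) [Field K] [Field Ω] [Algebra K Ω] [CommRing B] [Algebra K B] (r : ℕ)
    (J : Ideal (Ω ⊗[K] B)), J ∈ HilbFamily K B r Ω → 0 < r → ¬ IsLocalRing ((Ω ⊗[K] B) ⧸ J) →
    ∃ (a b : ℕ) (J₁ J₂ : Ideal (Ω ⊗[K] B)), 0 < a ∧ 0 < b ∧ a + b = r ∧
      J₁ ∈ HilbFamily K B a Ω ∧ J₂ ∈ HilbFamily K B b Ω ∧ J = J₁ ⊓ J₂

/-- (CLO) To be local is a closed condition. `Q = (A ⊗ B) / J` is free of rank `r` over the local ring `A`. For `b` in
`B` let `χ ∈ A[T]` be the characteristic polynomial of the multiplication by `b`. Over `Ω` it is `(T - c) ^ r` (the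
quotient is local and finite over the algebraically closed field `Ω`), `c` is integral over the image `A / ker φ` of `A`,
so `A / ker φ → Ω'` extends to `(A / ker φ)[c] → Ω'` and `χ` is `(T - c') ^ r` over `Ω'`. Hence all the elements
`1 ⊗ b` of the quotient over `Ω'` are sums of scalars and nilpotents, and then so are all elements. -/
def S_CLO : Prop :=
  ∀ (K A Ω Ω' B : Type u) [Field K] [CommRing A] [IsLocalRing A] [Algebra K A] [Field Ω] [Algebra K Ω]
    [IsAlgClosed Ω] [Field Ω'] [Algebra K Ω'] [IsAlgClosed Ω'] [CommRing B] [Algebra K B] (r : ℕ)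
    (J : Ideal (A ⊗[K] B)) (φ : A →ₐ[K] Ω) (φ' : A →ₐ[K] Ω'), J ∈ HilbFamily K B r A → 0 < r →
    RingHom.ker φ ≤ RingHom.ker φ' → IsLocalRing ((Ω ⊗[K] B) ⧸ bcI B φ J) →
    IsLocalRing ((Ω' ⊗[K] B) ⧸ bcI B φ' J)

/-- (GRA) The generic point of the Grassmannian. `F = K(a_ij)`, `i < e`, `j < N - e`, `N = binom (s + 2) 2` the number of
the monomials of degree `s`, divided into `ν_i`, `i < e`, and `μ_j`, `j < N - e`. `J` corresponds (`MvPolynomial.
algebraTensorAlgEquiv`) to the ideal of the `p` in `F[x, y, z]` with `coeff_m p = 0` for all monomials `m` of degree less than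
`s` and `coeff_(ν_i) p + ∑ j, a_ij coeff_(μ_j) p = 0` for all `i`. If `J` comes from `J'` over `κ`, then the monomials of
degree `< s` and the `ν_i` are a basis of the quotient over `κ` as well, and `μ_j = ∑ i, a_ij ν_i` shows that the `a_ij`
are in the image of `κ`. -/
def S_GRA : Prop :=
  ∀ (K : Type u) [Field K] (s e : ℕ), e ≤ (s + 2).choose 2 →
    ∃ (F : Type u) (_ : Field F) (_ : Algebra K F) (J : Ideal (F ⊗[K] MvPolynomial (Fin 3) K)),
      J ∈ HilbFamily K (MvPolynomial (Fin 3) K) ((s + 2).choose 3 + e) F ∧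
      ∀ (κ : Type u) [Field κ] [Algebra K κ] (ψ : κ →ₐ[K] F)
        (J' : Ideal (κ ⊗[K] MvPolynomial (Fin 3) K)),
        J' ∈ HilbFamily K (MvPolynomial (Fin 3) K) ((s + 2).choose 3 + e) κ →
        bcI (MvPolynomial (Fin 3) K) ψ J' = J →
        ((e * ((s + 2).choose 2 - e) : ℕ) : Cardinal.{u}) ≤ Algebra.trdeg K κ

/-- (FIN) A family over a field is defined over a subfield generated by `n r ^ 2 + r` elements: the entries of the
matrices of the multiplications by the variables and the coordinates of `1`, in a basis of the quotient which consists of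
images of elements of `B` (any basis of the quotient over `κ` will do: the span of the basis over `L` contains `1` and is
stable under the variables). -/
def S_FIN : Prop :=
  ∀ (K κ : Type u) [Field K] [Field κ] [Algebra K κ] (n r : ℕ)
    (J : Ideal (κ ⊗[K] MvPolynomial (Fin n) K)), J ∈ HilbFamily K (MvPolynomial (Fin n) K) r κ →
    ∃ L : IntermediateField K κ, Algebra.trdeg K L ≤ ((n * r ^ 2 + r : ℕ) : Cardinal.{u}) ∧
      SpanBy J L r

/-- (CMP) The transcendence degree of a compositum. -/
def S_CMP : Prop :=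
  ∀ (K Ω : Type u) [Field K] [Field Ω] [Algebra K Ω] (L₁ L₂ : IntermediateField K Ω),
    Algebra.trdeg K (L₁ ⊔ L₂ : IntermediateField K Ω) ≤ Algebra.trdeg K L₁ + Algebra.trdeg K L₂

/-- (TRD) Specialisation does not increase the transcendence degree: lift algebraically independent elements of `κ` to
`A` and map them to `L`; the kernel of `φ` is contained in the maximal ideal, the kernel of `π`. -/
def S_TRD : Prop :=
  ∀ (K A κ L : Type u) [Field K] [CommRing A] [IsLocalRing A] [Algebra K A] [Field κ] [Algebra K κ]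
    [Field L] [Algebra K L] (π : A →ₐ[K] κ) (φ : A →ₐ[K] L), Function.Surjective π →
    Algebra.trdeg K κ ≤ Algebra.trdeg K L

/-- (NUM) -/
def S_NUM : Prop :=
  ∀ C R : ℕ, ∃ s e : ℕ, e ≤ (s + 2).choose 2 ∧ R < (s + 2).choose 3 + e ∧
    C * ((s + 2).choose 3 + e) < e * ((s + 2).choose 2 - e)

end Pool.Agent.J4H46.EL
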